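import Pool.Agent.V11322.ZT.Val

/-!
The bound for the number of relations between points of an elliptic curve at one place of residue
characteristic zero, with or without complex multiplication.
-/

set_option autoImplicit false
set_option linter.unusedSectionVars false

namespace Pool.Agent.V11322.ZT

open Pool.Agent.W282.LF Pool.Agent.W466.EP Pool.Agent.V11322.ZC WeierstrassCurve
  WeierstrassCurve.Affine

/-- Algebraic numbers are units at places of residue characteristic zero. -/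
theorem alg_unit (V : ValuationSubring ℂ) (h0 : ∀ n : ℕ, n ≠ 0 → V.valuation (n : ℂ) = 1) {z : ℂ}
    (hz : IsAlgebraic ℚ z) (hz0 : z ≠ 0) : V.valuation z = 1 := by
  have hQ : ∀ a : ℚ, V.valuation (algebraMap ℚ ℂ a) ≤ 1 := by
    intro a
    have h1 : algebraMap ℚ ℂ a = (a.num : ℂ) / (a.den : ℂ) := by
      rw [eq_ratCast]
      exact Rat.cast_def a
    rw [h1, map_div₀, h0 _ a.den_ne_zero, div_one]
    exact v_int _ _
  refine TH526.ZL.unit_of_int V hQ hz0 ?_ ?_
  · exact isAlgebraic_iff_isIntegral.1 hz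
  · exact isAlgebraic_iff_isIntegral.1 hz.inv

/-- At every place over `Λ` of residue characteristic zero where the coordinates of the points of
`J` are large and of different sizes, there are at least `c` other points. -/
def Bd0 (Λ : Type) [CommRing Λ] [Algebra Λ ℂ] {A B : ℂ} {n : ℕ} (P : Fin n → (crv A B).Point)
    (c : ℕ) : Prop :=
  ∀ (V : ValuationSubring ℂ) (J : Finset (Fin n)),
    (∀ a : Λ, V.valuation (algebraMap Λ ℂ a) ≤ 1) → (∀ n : ℕ, n ≠ 0 → V.valuation (n : ℂ) = 1) →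
    V.valuation A ≤ 1 → V.valuation B ≤ 1 → (∀ i ∈ J, 1 < V.valuation (xx (P i))) →
    (∀ i ∈ J, ∀ j ∈ J, i ≠ j → V.valuation (xx (P i)) ≠ V.valuation (xx (P j))) → c ≤ Jᶜ.card

variable {Λ : Type} [CommRing Λ] [Algebra Λ ℂ]

/-- Data of a point with large coordinate. -/
theorem large {V : ValuationSubring ℂ} {A B : ℂ} (hA : V.valuation A ≤ 1)
    (hB : V.valuation B ≤ 1) {Q : (crv A B).Point} (h : 1 < V.valuation (xx Q)) :
    Q ≠ 0 ∧ Fm V.valuation Q ∧ V.valuation (tt Q) ^ 2 * V.valuation (xx Q) = 1 := by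
  rcases Q with _ | ⟨x, y, hn⟩
  · change 1 < V.valuation (0 : ℂ) at h
    rw [map_zero] at h
    exact absurd h (not_lt.2 zero_le_one)
  · obtain ⟨-, -, -, h2, -⟩ := loc hA hB (eqn hn) h
    exact ⟨fun h0 => absurd h0 (by simp), h, h2⟩

/-- Points of different sizes have parameters of different sizes. -/
theorem tt_dis {V : ValuationSubring ℂ} {A B : ℂ} (hA : V.valuation A ≤ 1)
    (hB : V.valuation B ≤ 1) {Q Q' : (crv A B).Point} (h : 1 < V.valuation (xx Q))
    (h' : 1 < V.valuation (xx Q')) (hne : V.valuation (xx Q) ≠ V.valuation (xx Q')) :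
    V.valuation (tt Q) ≠ V.valuation (tt Q') := by
  intro heq
  obtain ⟨-, -, h1⟩ := large hA hB h
  obtain ⟨-, -, h2⟩ := large hA hB h'
  rw [heq] at h1
  apply hne
  have h3 : V.valuation (tt Q') ^ 2 ≠ 0 := by
    intro h0
    rw [h0, zero_mul] at h2
    exact zero_ne_one h2
  exact mul_left_cancel₀ h3 (h1.trans h2.symm)

/-- A point near the origin, not the origin, has no multiple with an integral coordinate. -/
theorem no_int {V : ValuationSubring ℂ} (hΛ : ∀ a : Λ, V.valuation (algebraMap Λ ℂ a) ≤ 1)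
    (h0 : ∀ n : ℕ, n ≠ 0 → V.valuation (n : ℂ) = 1) {A B : ℂ} (hA : V.valuation A ≤ 1)
    (hB : V.valuation B ≤ 1) {Q : (crv A B).Point} (hQ : Fm V.valuation Q)
    (hQ0 : V.valuation (tt Q) ≠ 0) {t : ℕ} (ht : 0 < t) (hint : IsIntegral Λ (xx (t • Q))) :
    False := by
  have hQ1 : Q ≠ 0 := by
    rintro rfl
    apply hQ0
    change V.valuation (0 : ℂ) = 0
    rw [map_zero]
  obtain ⟨h1, h2⟩ := nsmul_unit hA hB two_ne_zero (h0 t ht.ne') hQ hQ1
  rw [← h2] at hQ0
  have h3 := TH526.ZL.mem_of_int V hΛ hint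
  generalize t • Q = R at h1 hQ0 h3
  rcases R with _ | ⟨x, y, hn⟩
  · apply hQ0
    change V.valuation (0 : ℂ) = 0
    rw [map_zero]
  · exact absurd h1 (not_lt.2 h3)

theorem int_unit {V : ValuationSubring ℂ} (h0 : ∀ n : ℕ, n ≠ 0 → V.valuation (n : ℂ) = 1) {l : ℤ}
    (hl : l ≠ 0) : V.valuation (l : ℂ) = 1 := by
  rcases Int.eq_nat_or_neg l with ⟨m, rfl | rfl⟩
  · rw [Int.cast_natCast]
    exact h0 m (by exact_mod_cast hl)
  · rw [Int.cast_neg, Int.cast_natCast, Valuation.map_neg]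
    refine h0 m ?_
    rintro rfl
    exact hl (by simp)

theorem bd0Z {A B : ℂ} {n : ℕ} {P : Fin n → (crv A B).Point} (M : Submodule ℤ (Fin n → ℤ))
    (hM : ∀ r ∈ M, ∃ t : ℕ, 0 < t ∧ IsIntegral Λ (xx (t • ∑ i, r i • P i))) :
    Bd0 Λ P (Module.finrank ℤ M) := by
  classical
  intro V J hΛ h0 hA hB hJ hdis
  by_contra hcon
  push Not at hcon
  obtain ⟨r, hr, hr0, hrF⟩ := exists_rel M Jᶜ hcon
  obtain ⟨t, ht, hint⟩ := hM r hr
  let J' : Finset (Fin n) := Finset.univ.filter fun i => r i ≠ 0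
  have hJJ : ∀ i ∈ J', i ∈ J := by
    intro i hi
    by_contra h
    exact (Finset.mem_filter.1 hi).2 (hrF i (Finset.mem_compl.2 h))
  have hne : J'.Nonempty := by
    by_contra h
    rw [Finset.not_nonempty_iff_eq_empty] at h
    apply hr0
    funext i
    by_contra h1
    have : i ∈ J' := Finset.mem_filter.2 ⟨Finset.mem_univ _, h1⟩
    rw [h] at this
    exact absurd this (Finset.notMem_empty i)
  have hR : ∀ i ∈ J', Fm V.valuation (r i • P i) ∧
      V.valuation (tt (r i • P i)) = V.valuation (tt (P i)) := by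
    intro i hi
    obtain ⟨h1, h2, -⟩ := large hA hB (hJ i (hJJ i hi))
    exact zsmul_unit hA hB two_ne_zero (int_unit h0 (Finset.mem_filter.1 hi).2) h2 h1
  obtain ⟨h1, i, hi, h2, -⟩ := sum_val hA hB two_ne_zero J' (fun i => r i • P i)
    (fun i hi => (hR i hi).1) (by
      intro i hi j hj hij
      rw [(hR i hi).2, (hR j hj).2]
      exact tt_dis hA hB (hJ i (hJJ i hi)) (hJ j (hJJ j hj)) (hdis i (hJJ i hi) j (hJJ j hj) hij))
    hne
  have hsum : ∑ i ∈ J', r i • P i = ∑ i, r i • P i := by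
    apply Finset.sum_subset (Finset.subset_univ _)
    intro i _ hi
    have : r i = 0 := by
      by_contra h
      exact hi (Finset.mem_filter.2 ⟨Finset.mem_univ _, h⟩)
    rw [this, zero_zsmul]
  rw [hsum] at h1 h2
  refine no_int hΛ h0 hA hB h1 ?_ ht hint
  rw [h2, (hR i hi).2]
  obtain ⟨h3, h4, -⟩ := large hA hB (hJ i (hJJ i hi))
  exact (map_ne_zero _).2 (tt_ne hA hB h4 h3)

theorem bd0CM {A B : ℂ} {n : ℕ} {P : Fin n → (crv A B).Point} (cm : CM A B)
    (M : Submodule ℤ (Fin n → ℤ × ℤ))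
    (hM : ∀ r ∈ M, ∃ t : ℕ, 0 < t ∧
      IsIntegral Λ (xx (t • ∑ i, ((r i).1 • P i + (r i).2 • cm.φ (P i))))) :
    Bd0 Λ P ((Module.finrank ℤ M + 1) / 2) := by
  classical
  intro V J hΛ h0 hA hB hJ hdis
  by_contra hcon
  push Not at hcon
  obtain ⟨r, hr, hr0, hrF⟩ := exists_rel2 M Jᶜ (by omega)
  obtain ⟨t, ht, hint⟩ := hM r hr
  set v := V.valuation with hv
  have h20 : (2 : ℂ) ≠ 0 := two_ne_zero
  set θ := cm.F.leadingCoeff * cm.K.leadingCoeff / (cm.G.leadingCoeff * cm.H.leadingCoeff)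
    with hθd
  have hF0 : cm.F ≠ 0 := by
    intro h
    have := cm.ratl.degF
    rw [h, Polynomial.natDegree_zero] at this
    omega
  have hcoef : ∀ Q ∈ ({cm.F, cm.G, cm.H, cm.K} : Set (Polynomial ℂ)),
      (∀ i, v (Q.coeff i) ≤ 1) ∧ v Q.leadingCoeff = 1 := by
    intro Q hQ
    have hQ0 : Q ≠ 0 := by
      simp only [Set.mem_insert_iff, Set.mem_singleton_iff] at hQ
      rcases hQ with rfl | rfl | rfl | rfl
      · exact hF0
      · exact cm.ratl.G0
      · exact cm.ratl.H0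
      · exact cm.ratl.K0
    refine ⟨fun i => ?_, alg_unit V h0 (cm.alg Q hQ _) (Polynomial.leadingCoeff_ne_zero.2 hQ0)⟩
    by_cases hi : Q.coeff i = 0
    · rw [hi, map_zero]
      exact zero_le
    · exact (alg_unit V h0 (cm.alg Q hQ i) hi).le
  have hend : ∀ Q : (crv A B).Point, Fm v Q → Q ≠ 0 → Fm v (cm.φ Q) ∧ cm.φ Q ≠ 0 ∧
      v (tt (cm.φ Q) - θ * tt Q) < v (tt Q) := fun Q hQ hQ0 =>
    endo_near hA hB cm.ratl hcoef hQ hQ0
  have hθa : IsAlgebraic ℚ θ := by
    rw [hθd, div_eq_mul_inv]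
    exact ((cm.alg _ (by simp) _).mul (cm.alg _ (by simp) _)).mul
      ((cm.alg _ (by simp) _).mul (cm.alg _ (by simp) _)).inv
  have hθ0 : θ ≠ 0 := by
    apply div_ne_zero
    · exact mul_ne_zero (Polynomial.leadingCoeff_ne_zero.2 hF0)
        (Polynomial.leadingCoeff_ne_zero.2 cm.ratl.K0)
    · exact mul_ne_zero (Polynomial.leadingCoeff_ne_zero.2 cm.ratl.G0)
        (Polynomial.leadingCoeff_ne_zero.2 cm.ratl.H0)
  have hθ1 : v θ = 1 := alg_unit V h0 hθa hθ0
  have hpow5 : ∀ {g : V.ValueGroup}, 0 < g → g < 1 → g ^ 5 < g := by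
    intro g hg hg1
    calc g ^ 5 = g ^ 4 * g := pow_succ _ _
      _ < 1 * g := by
        gcongr
        exact pow_lt_one₀ zero_le hg1 (by norm_num)
      _ = g := one_mul _
  -- combinations `l Q + k φ Q`
  have hlin : ∀ Q : (crv A B).Point, Fm v Q → Q ≠ 0 → ∀ l k : ℤ,
      Fm v (l • Q + k • cm.φ Q) ∧
      v (tt (l • Q + k • cm.φ Q) - ((l : ℂ) + k * θ) * tt Q) < v (tt Q) := by
    intro Q hQ hQ0 l k
    obtain ⟨e1, e2, e3⟩ := hend Q hQ hQ0
    have hQ1 := tt_lt hA hB hQ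
    have hpos : 0 < v (tt Q) := zero_lt_iff.2 ((map_ne_zero v).2 (tt_ne hA hB hQ hQ0))
    have e4 : v (tt (cm.φ Q)) ≤ v (tt Q) := by
      have : tt (cm.φ Q) = (tt (cm.φ Q) - θ * tt Q) + θ * tt Q := by ring
      rw [this]
      refine v_le_of e3.le ?_
      rw [map_mul, hθ1, one_mul]
    obtain ⟨z1, z2⟩ := zsmul_near hA hB h20 hQ hQ1 le_rfl l
    obtain ⟨z3, z4⟩ := zsmul_near hA hB h20 e1 hQ1 e4 k
    have z5 : v (tt (l • Q)) ≤ v (tt Q) := by
      have : tt (l • Q) = (tt (l • Q) - l * tt Q) + l * tt Q := by ring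
      rw [this]
      refine v_le_of (z2.trans (hpow5 hpos hQ1).le) ?_
      rw [map_mul]
      exact mul_le_of_le_one_left' (v_int v l)
    have z6 : v (tt (k • cm.φ Q)) ≤ v (tt Q) := by
      have : tt (k • cm.φ Q) = (tt (k • cm.φ Q) - k * tt (cm.φ Q)) + k * tt (cm.φ Q) := by ring
      rw [this]
      refine v_le_of (z4.trans (hpow5 hpos hQ1).le) ?_
      rw [map_mul]
      exact (mul_le_of_le_one_left' (v_int v k)).trans e4
    obtain ⟨z7, z8⟩ := add_near hA hB h20 (l • Q) (k • cm.φ Q) z1 z3 hQ1 z5 z6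
    refine ⟨z7, ?_⟩
    have z9 : tt (l • Q + k • cm.φ Q) - ((l : ℂ) + k * θ) * tt Q =
        (tt (l • Q + k • cm.φ Q) - (tt (l • Q) + tt (k • cm.φ Q))) +
        ((tt (l • Q) - l * tt Q) + ((tt (k • cm.φ Q) - k * tt (cm.φ Q)) +
          k * (tt (cm.φ Q) - θ * tt Q))) := by ring
    rw [z9]
    have h5 := hpow5 hpos hQ1
    refine v.map_add_lt (z8.trans_lt h5) (v.map_add_lt (z2.trans_lt h5)
      (v.map_add_lt (z4.trans_lt h5) ?_))
    rw [map_mul]
    exact (mul_le_of_le_one_left' (v_int v k)).trans_lt e3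
  -- a point
  let J' : Finset (Fin n) := Finset.univ.filter fun i => r i ≠ 0
  have hJJ : ∀ i ∈ J', i ∈ J := by
    intro i hi
    by_contra h
    exact (Finset.mem_filter.1 hi).2 (hrF i (Finset.mem_compl.2 h))
  have hne : J'.Nonempty := by
    by_contra h
    rw [Finset.not_nonempty_iff_eq_empty] at h
    apply hr0
    funext i
    by_contra h1
    have : i ∈ J' := Finset.mem_filter.2 ⟨Finset.mem_univ _, h1⟩
    rw [h] at this
    exact absurd this (Finset.notMem_empty i)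
  -- the quadratic equation
  have hquad : θ ^ 2 = cm.a * θ + cm.b := by
    obtain ⟨i, hi⟩ := hne
    obtain ⟨c1, c2, -⟩ := large hA hB (hJ i (hJJ i hi))
    set Q := P i
    obtain ⟨e1, e2, e3⟩ := hend Q c2 c1
    obtain ⟨f1, f2, f3⟩ := hend (cm.φ Q) e1 e2
    obtain ⟨l1, l2⟩ := hlin Q c2 c1 cm.b cm.a
    have hQpos : 0 < v (tt Q) := zero_lt_iff.2 ((map_ne_zero v).2 (tt_ne hA hB c2 c1))
    have e4 : v (tt (cm.φ Q)) ≤ v (tt Q) := by
      have : tt (cm.φ Q) = (tt (cm.φ Q) - θ * tt Q) + θ * tt Q := by ring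
      rw [this]
      refine v_le_of e3.le ?_
      rw [map_mul, hθ1, one_mul]
    have h6 : cm.φ (cm.φ Q) = cm.b • Q + cm.a • cm.φ Q := by
      rw [cm.sq Q, add_comm]
    rw [← h6] at l2
    have h7 : v ((θ ^ 2 - (cm.a * θ + cm.b)) * tt Q) < v (tt Q) := by
      have h8 : (θ ^ 2 - (cm.a * θ + cm.b)) * tt Q =
          (tt (cm.φ (cm.φ Q)) - ((cm.b : ℂ) + cm.a * θ) * tt Q) -
          ((tt (cm.φ (cm.φ Q)) - θ * tt (cm.φ Q)) + θ * (tt (cm.φ Q) - θ * tt Q)) := by ring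
      rw [h8]
      refine v.map_sub_lt l2 (v.map_add_lt (f3.trans_le e4) ?_)
      rw [map_mul, hθ1, one_mul]
      exact e3
    by_contra hcon2
    have hz : θ ^ 2 - (cm.a * θ + cm.b) ≠ 0 := sub_ne_zero.2 hcon2
    have hza : IsAlgebraic ℚ (θ ^ 2 - (cm.a * θ + cm.b)) := by
      have ha : IsAlgebraic ℚ (cm.a : ℂ) := isAlgebraic_intCast cm.a
      have hb : IsAlgebraic ℚ (cm.b : ℂ) := isAlgebraic_intCast cm.b
      exact (hθa.pow 2).sub ((ha.mul hθa).add hb)
    rw [map_mul, alg_unit V h0 hza hz, one_mul] at h7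
    exact lt_irrefl _ h7
  have hR : ∀ i ∈ J', Fm v ((r i).1 • P i + (r i).2 • cm.φ (P i)) ∧
      v (tt ((r i).1 • P i + (r i).2 • cm.φ (P i))) = v (tt (P i)) := by
    intro i hi
    obtain ⟨c1, c2, -⟩ := large hA hB (hJ i (hJJ i hi))
    obtain ⟨l1, l2⟩ := hlin (P i) c2 c1 (r i).1 (r i).2
    refine ⟨l1, ?_⟩
    have hne0 : (((r i).1 : ℂ) + (r i).2 * θ) ≠ 0 := by
      intro hz
      have hri := (Finset.mem_filter.1 hi).2
      have hk : (r i).2 ≠ 0 := by
        intro hk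
        apply hri
        rw [hk] at hz
        simp only [Int.cast_zero, zero_mul, add_zero, Int.cast_eq_zero] at hz
        exact Prod.ext hz hk
      have hkc : ((r i).2 : ℂ) ≠ 0 := by exact_mod_cast hk
      have h1 : (2 * ((r i).1 : ℂ) + cm.a * (r i).2) ^ 2 =
          ((cm.a : ℂ) ^ 2 + 4 * cm.b) * (r i).2 ^ 2 := by
        have h2 : ((r i).1 : ℂ) = -((r i).2 * θ) := by linear_combination hz
        rw [h2]
        linear_combination 4 * ((r i).2 : ℂ) ^ 2 * hquad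
      have h3 : (2 * (r i).1 + cm.a * (r i).2) ^ 2 = (cm.a ^ 2 + 4 * cm.b) * (r i).2 ^ 2 := by
        exact_mod_cast h1
      have h4 : (cm.a ^ 2 + 4 * cm.b) * (r i).2 ^ 2 < 0 :=
        mul_neg_of_neg_of_pos cm.neg (by positivity)
      have h5 := sq_nonneg (2 * (r i).1 + cm.a * (r i).2)
      omega
    have halg : IsAlgebraic ℚ (((r i).1 : ℂ) + (r i).2 * θ) :=
      (isAlgebraic_intCast _).add ((isAlgebraic_intCast _).mul hθa)
    have hu := alg_unit V h0 halg hne0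
    have h6 : tt ((r i).1 • P i + (r i).2 • cm.φ (P i)) =
        (((r i).1 : ℂ) + (r i).2 * θ) * tt (P i) +
        (tt ((r i).1 • P i + (r i).2 • cm.φ (P i)) - (((r i).1 : ℂ) + (r i).2 * θ) * tt (P i)) := by
      ring
    have h7 : v ((((r i).1 : ℂ) + (r i).2 * θ) * tt (P i)) = v (tt (P i)) := by
      rw [map_mul, hu, one_mul]
    rw [h6, Valuation.map_add_eq_of_lt_left _ (by rw [h7]; exact l2), h7]
  obtain ⟨h1, i, hi, h2, -⟩ := sum_val hA hB h20 J'
    (fun i => (r i).1 • P i + (r i).2 • cm.φ (P i))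
    (fun i hi => (hR i hi).1) (by
      intro i hi j hj hij
      rw [(hR i hi).2, (hR j hj).2]
      exact tt_dis hA hB (hJ i (hJJ i hi)) (hJ j (hJJ j hj)) (hdis i (hJJ i hi) j (hJJ j hj) hij))
    hne
  have hsum : ∑ i ∈ J', ((r i).1 • P i + (r i).2 • cm.φ (P i)) =
      ∑ i, ((r i).1 • P i + (r i).2 • cm.φ (P i)) := by
    apply Finset.sum_subset (Finset.subset_univ _)
    intro i _ hi
    have : r i = 0 := by
      by_contra h
      exact hi (Finset.mem_filter.2 ⟨Finset.mem_univ _, h⟩)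
    rw [this]
    simp
  rw [hsum] at h1 h2
  refine no_int hΛ h0 hA hB h1 ?_ ht hint
  change v _ ≠ 0
  rw [h2, (hR i hi).2]
  obtain ⟨h3, h4, -⟩ := large hA hB (hJ i (hJJ i hi))
  exact (map_ne_zero _).2 (tt_ne hA hB h4 h3)

end Pool.Agent.V11322.ZT
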