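import Pool.Agent.V11322.ZC.Loc
import Pool.Agent.TH526.ZL.G

/-!
Points of elliptic curves near the origin at valuations of residue characteristic zero: no relations
between points of different orders, with or without complex multiplication.
-/

set_option autoImplicit false
set_option linter.unusedSectionVars false

namespace Pool.Agent.V11322.ZT

open Pool.Agent.W282.LF Pool.Agent.W466.EP WeierstrassCurve WeierstrassCurve.Affine

section

variable {L : Type*} [Field L] [DecidableEq L] {Γ₀ : Type*} [LinearOrderedCommGroupWithZero Γ₀]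
  {v : Valuation L Γ₀} {A B : L}

theorem nsmul_unit (hA : v A ≤ 1) (hB : v B ≤ 1) (h2 : (2 : L) ≠ 0) {m : ℕ}
    (hm : v (m : L) = 1) {P : (crv A B).Point} (hP : Fm v P) (h0 : P ≠ 0) :
    Fm v (m • P) ∧ v (tt (m • P)) = v (tt P) := by
  have hP1 := tt_lt hA hB hP
  have h1 := nsmul_near hA hB h2 hP hP1 le_rfl m
  refine ⟨h1.1, ?_⟩
  have h3 : tt (m • P) = m * tt P + (tt (m • P) - m * tt P) := by ring
  have hpos : 0 < v (tt P) := zero_lt_iff.2 ((map_ne_zero v).2 (tt_ne hA hB hP h0))
  have h4 : v (tt P) ^ 5 < v (tt P) := by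
    calc v (tt P) ^ 5 = v (tt P) ^ 4 * v (tt P) := pow_succ _ _
      _ < 1 * v (tt P) := by
        gcongr
        exact pow_lt_one₀ zero_le hP1 (by norm_num)
      _ = v (tt P) := one_mul _
  have h5 : v (m * tt P) = v (tt P) := by rw [map_mul, hm, one_mul]
  rw [h3, Valuation.map_add_eq_of_lt_left _ (by rw [h5]; exact h1.2.trans_lt h4), h5]

/-- `l • P + Q` with `Q` near `θ P`: the general estimate for multiples -/
theorem zsmul_near (hA : v A ≤ 1) (hB : v B ≤ 1) (h2 : (2 : L) ≠ 0) {P : (crv A B).Point}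
    (hP : Fm v P) {a : Γ₀} (ha : a < 1) (hPa : v (tt P) ≤ a) (n : ℤ) :
    Fm v (n • P) ∧ v (tt (n • P) - n * tt P) ≤ a ^ 5 := by
  rcases Int.eq_nat_or_neg n with ⟨m, rfl | rfl⟩
  · rw [natCast_zsmul, Int.cast_natCast]
    exact nsmul_near hA hB h2 hP ha hPa m
  · obtain ⟨h3, h4⟩ := nsmul_near hA hB h2 hP ha hPa m
    rw [neg_smul, natCast_zsmul, Int.cast_neg, Int.cast_natCast, tt_neg]
    refine ⟨fm_neg h3, ?_⟩
    have h5 : -tt (m • P) - -(m : L) * tt P = -(tt (m • P) - m * tt P) := by ring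
    rw [h5, Valuation.map_neg]
    exact h4

theorem zsmul_unit (hA : v A ≤ 1) (hB : v B ≤ 1) (h2 : (2 : L) ≠ 0) {n : ℤ}
    (hn : v (n : L) = 1) {P : (crv A B).Point} (hP : Fm v P) (h0 : P ≠ 0) :
    Fm v (n • P) ∧ v (tt (n • P)) = v (tt P) := by
  have hP1 := tt_lt hA hB hP
  have h1 := zsmul_near hA hB h2 hP hP1 le_rfl n
  refine ⟨h1.1, ?_⟩
  have h3 : tt (n • P) = n * tt P + (tt (n • P) - n * tt P) := by ring
  have hpos : 0 < v (tt P) := zero_lt_iff.2 ((map_ne_zero v).2 (tt_ne hA hB hP h0))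
  have h4 : v (tt P) ^ 5 < v (tt P) := by
    calc v (tt P) ^ 5 = v (tt P) ^ 4 * v (tt P) := pow_succ _ _
      _ < 1 * v (tt P) := by
        gcongr
        exact pow_lt_one₀ zero_le hP1 (by norm_num)
      _ = v (tt P) := one_mul _
  have h5 : v (n * tt P) = v (tt P) := by rw [map_mul, hn, one_mul]
  rw [h3, Valuation.map_add_eq_of_lt_left _ (by rw [h5]; exact h1.2.trans_lt h4), h5]

/-- the value of a polynomial with unit leading coefficient at a large element -/
theorem poly_near {P : Polynomial L} (hP : ∀ i, v (P.coeff i) ≤ 1) {x : L} (hx : 1 < v x) :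
    v (P.eval x / x ^ P.natDegree - P.leadingCoeff) < 1 := by
  have hx0 : x ≠ 0 := by
    rintro rfl
    rw [map_zero] at hx
    exact not_lt.2 zero_le_one hx
  have hxd : x ^ P.natDegree ≠ 0 := pow_ne_zero _ hx0
  have h1 : P.eval x / x ^ P.natDegree - P.leadingCoeff =
      ∑ i ∈ Finset.range P.natDegree, P.coeff i * x ^ i / x ^ P.natDegree := by
    rw [Polynomial.eval_eq_sum_range, Finset.sum_range_succ, add_div, Finset.sum_div,
      Polynomial.coeff_natDegree, mul_div_cancel_right₀ _ hxd]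
    ring
  rw [h1]
  refine Valuation.map_sum_lt _ one_ne_zero fun i hi => ?_
  rw [Finset.mem_range] at hi
  rw [map_div₀, map_mul, map_pow, map_pow]
  have h2 : 0 < v x ^ P.natDegree := pow_pos (zero_lt_one.trans hx) _
  rw [div_lt_one₀ h2]
  calc v (P.coeff i) * v x ^ i ≤ 1 * v x ^ i := by gcongr; exact hP i
    _ = v x ^ i := one_mul _
    _ < v x ^ P.natDegree := pow_lt_pow_right₀ hx hi

/-- congruences modulo the maximal ideal -/
theorem mul_near {a b a' b' : L} (ha : v a ≤ 1) (hb' : v b' ≤ 1) (h1 : v (a - a') < 1)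
    (h2 : v (b - b') < 1) : v (a * b - a' * b') < 1 := by
  have h3 : a * b - a' * b' = a * (b - b') + (a - a') * b' := by ring
  rw [h3]
  refine v.map_add_lt ?_ ?_
  · rw [map_mul]
    exact (mul_le_of_le_one_left' ha).trans_lt h2
  · rw [map_mul]
    exact (mul_le_of_le_one_right' hb').trans_lt h1

theorem unit_near {a a' : L} (ha' : v a' = 1) (h1 : v (a - a') < 1) : v a = 1 := by
  have h2 : a = a' + (a - a') := by ring
  rw [h2, Valuation.map_add_eq_of_lt_left _ (by rw [ha']; exact h1), ha']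

theorem inv_near {a a' : L} (ha' : v a' = 1) (h1 : v (a - a') < 1) : v (a⁻¹ - a'⁻¹) < 1 := by
  have h2 := unit_near ha' h1
  have ha0 : a ≠ 0 := by
    rintro rfl
    rw [map_zero] at h2
    exact zero_ne_one h2
  have ha0' : a' ≠ 0 := by
    rintro rfl
    rw [map_zero] at ha'
    exact zero_ne_one ha'
  have h3 : a⁻¹ - a'⁻¹ = -(a - a') * a⁻¹ * a'⁻¹ := by field_simp; ring
  rw [h3, map_mul, map_mul, Valuation.map_neg, map_inv₀, map_inv₀, h2, ha', inv_one, mul_one,
    mul_one]
  exact h1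

/-- Approximation of an endomorphism near the origin, if all coefficients are integral and the
leading coefficients are units. -/
theorem endo_near (hA : v A ≤ 1) (hB : v B ≤ 1) {φ : (crv A B).Point →+ (crv A B).Point}
    {F G H K : Polynomial L} (hR : IsRatl φ F G H K)
    (hc : ∀ P ∈ ({F, G, H, K} : Set (Polynomial L)), (∀ i, v (P.coeff i) ≤ 1) ∧
      v P.leadingCoeff = 1) {Q : (crv A B).Point} (hQ : Fm v Q) (hQ0 : Q ≠ 0) :
    Fm v (φ Q) ∧ φ Q ≠ 0 ∧
      v (tt (φ Q) - F.leadingCoeff * K.leadingCoeff / (G.leadingCoeff * H.leadingCoeff) * tt Q) <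
        v (tt Q) := by
  obtain ⟨hF1, hF2⟩ := hc F (by simp)
  obtain ⟨hG1, hG2⟩ := hc G (by simp)
  obtain ⟨hH1, hH2⟩ := hc H (by simp)
  obtain ⟨hK1, hK2⟩ := hc K (by simp)
  rcases Q with _ | ⟨x, y, hn⟩
  · exact absurd rfl hQ0
  have hx : 1 < v x := hQ
  obtain ⟨hy0, hx0, -, -, -, -⟩ := loc hA hB (eqn hn) hx
  have f1 := poly_near hF1 hx
  have g1 := poly_near hG1 hx
  have h1 := poly_near hH1 hx
  have k1 := poly_near hK1 hx
  set f := F.eval x / x ^ F.natDegree with hf
  set g := G.eval x / x ^ G.natDegree with hg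
  set h := H.eval x / x ^ H.natDegree with hh
  set k := K.eval x / x ^ K.natDegree with hk
  have fu := unit_near hF2 f1
  have gu := unit_near hG2 g1
  have hu := unit_near hH2 h1
  have ku := unit_near hK2 k1
  have ne_of : ∀ {z : L}, v z = 1 → z ≠ 0 := by
    rintro z hz rfl
    rw [map_zero] at hz
    exact zero_ne_one hz
  have hf0 := ne_of fu
  have hg0 := ne_of gu
  have hh0 := ne_of hu
  have hk0 := ne_of ku
  have hxp : ∀ d : ℕ, x ^ d ≠ 0 := fun d => pow_ne_zero d hx0
  have eF : F.eval x = f * x ^ F.natDegree := (div_mul_cancel₀ _ (hxp _)).symm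
  have eG : G.eval x = g * x ^ G.natDegree := (div_mul_cancel₀ _ (hxp _)).symm
  have eH : H.eval x = h * x ^ H.natDegree := (div_mul_cancel₀ _ (hxp _)).symm
  have eK : K.eval x = k * x ^ K.natDegree := (div_mul_cancel₀ _ (hxp _)).symm
  have hG0 : G.eval x ≠ 0 := by rw [eG]; exact mul_ne_zero hg0 (hxp _)
  have hK0 : K.eval x ≠ 0 := by rw [eK]; exact mul_ne_zero hk0 (hxp _)
  obtain ⟨hn', hφ⟩ := hR.val x y hn hG0 hK0
  have e1 : F.eval x / G.eval x = x * (f / g) := by
    rw [eF, eG, hR.degF, pow_succ]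
    have := hxp G.natDegree
    field_simp
  have e2 : H.eval x / K.eval x = h / k := by
    rw [eH, eK, hR.degH]
    have := hxp K.natDegree
    field_simp
  rw [hφ]
  refine ⟨?_, ?_, ?_⟩
  · change 1 < v (F.eval x / G.eval x)
    rw [e1, map_mul, map_div₀, fu, gu, div_one, mul_one]
    exact hx
  · intro h0
    exact absurd h0 (by simp)
  · change v (F.eval x / G.eval x / (y * (H.eval x / K.eval x)) -
      F.leadingCoeff * K.leadingCoeff / (G.leadingCoeff * H.leadingCoeff) * (x / y)) < v (x / y)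
    have e3 : F.eval x / G.eval x / (y * (H.eval x / K.eval x)) -
        F.leadingCoeff * K.leadingCoeff / (G.leadingCoeff * H.leadingCoeff) * (x / y) =
        (f * k * (g * h)⁻¹ - F.leadingCoeff * K.leadingCoeff *
          (G.leadingCoeff * H.leadingCoeff)⁻¹) * (x / y) := by
      rw [e1, e2]
      have hGl := ne_of hG2
      have hHl := ne_of hH2
      field_simp
    rw [e3, map_mul]
    have hpos : 0 < v (x / y) := zero_lt_iff.2 ((map_ne_zero v).2 (div_ne_zero hx0 hy0))
    have h5 : v (f * k * (g * h)⁻¹ - F.leadingCoeff * K.leadingCoeff *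
          (G.leadingCoeff * H.leadingCoeff)⁻¹) < 1 := by
      refine mul_near ?_ ?_ (mul_near fu.le hK2.le f1 k1) (inv_near ?_ (mul_near gu.le hH2.le g1 h1))
      · rw [map_mul, fu, ku, mul_one]
      · rw [map_inv₀, map_mul, hG2, hH2, mul_one, inv_one]
      · rw [map_mul, hG2, hH2, mul_one]
    calc v (f * k * (g * h)⁻¹ - F.leadingCoeff * K.leadingCoeff *
          (G.leadingCoeff * H.leadingCoeff)⁻¹) * v (x / y) < 1 * v (x / y) := by gcongr
      _ = v (x / y) := one_mul _

end

end Pool.Agent.V11322.ZT
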